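import Mathlib
import Pool.Agent.H82.SVL.Model

set_option autoImplicit false

namespace Pool.Agent.H82.EOL

open Pool.Agent.H82.SVL (Str Fam Comp prob Negligible)

/-- A source-or-sink instance on `{0,1}^n`: a successor and a predecessor function, computed
with queries to a permutation family. -/
structure EOLI (n : ℕ) : Type where
  S : Str n → Comp Str (Str n)
  P : Str n → Comp Str (Str n)

namespace EOLI

variable {n : ℕ}

/-- There is an edge from `u` to `v`, relative to `π`. -/
def Edge (I : EOLI n) (π : Fam) (u v : Str n) : Prop :=
  u ≠ v ∧ (I.S u).run (fun m => π m) = v ∧ (I.P v).run (fun m => π m) = u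

/-- In-degree. -/
noncomputable def inDeg (I : EOLI n) (π : Fam) (x : Str n) : ℕ := Nat.card {u // I.Edge π u x}

/-- Out-degree. -/
noncomputable def outDeg (I : EOLI n) (π : Fam) (x : Str n) : ℕ := Nat.card {v // I.Edge π x v}

/-- Solutions: `0^n` if it has an incoming edge or no outgoing edge, and every other string whose
in-degree and out-degree differ. -/
def Sol (I : EOLI n) (π : Fam) (x : Str n) : Prop :=
  (x = (fun _ => false) ∧ (I.inDeg π x ≠ 0 ∨ I.outDeg π x = 0)) ∨
  (x ≠ (fun _ => false) ∧ I.inDeg π x ≠ I.outDeg π x)

/-- Number of solutions. -/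
noncomputable def numSol (I : EOLI n) (π : Fam) : ℕ := Nat.card {x // I.Sol π x}

/-- All computations of the instance make at most `q` queries of length at most `q`. -/
def Bdd (I : EOLI n) (q : ℕ) : Prop :=
  (∀ x, (I.S x).Within q q) ∧ ∀ x, (I.P x).Within q q

end EOLI

/-- A candidate construction of source-or-sink instances from permutations. -/
structure Construction : Type 1 where
  /-- descriptions of instances with security parameter `n` -/
  Code : ℕ → Type
  /-- the instance described (with oracle computations `S` and `P`) -/
  dec : ∀ n, Code n → EOLI n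
  /-- number of random bits of the sampler -/
  cG : ℕ → ℕ
  /-- the oracle sampler -/
  G : ∀ n, Str (cG n) → Comp Str (Code n)
  /-- number of random bits of the reduction -/
  cR : ℕ → ℕ
  /-- the reduction on input `y` in `{0,1}^m`, with oracle access to the permutation family
  and to the solver -/
  R : ∀ m, Str (cR m) → Str m → Comp (fun i => Str i ⊕ Code i) (Str m)

namespace Construction

variable (K : Construction)

/-- The instance sampled by `G` relative to `π` with random bits `r`. -/
def inst (π : Fam) (n : ℕ) (r : Str (K.cG n)) : EOLI n :=
  K.dec n ((K.G n r).run (fun m => π m))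

open Classical in
/-- Probability that the solver `A` outputs a solution of an instance sampled relative to `π`. -/
noncomputable def solves (π : Fam) (A : ∀ n, K.Code n → Str n) (n : ℕ) : ℝ :=
  prob (fun r : Str (K.cG n) =>
    (K.inst π n r).Sol π (A n ((K.G n r).run (fun m => π m))))

/-- Probability that `R`, given `π (x)` for uniform `x` in `{0,1}^m` and oracle access to `π`
and `A`, outputs `x`. -/
noncomputable def inverts (π : Fam) (A : ∀ n, K.Code n → Str n) (m : ℕ) : ℝ :=
  prob (fun p : Str (K.cR m) × Str m =>
    (K.R m p.1 (π m p.2)).run (fun i => Sum.elim (π i) (A i)) = p.2)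

/-- Fully black-box constructions, from one-way permutations, of hard-on-average source-or-sink
instances with at most `B n` solutions, where polynomial time is relaxed to polynomially many
queries of polynomial size. -/
structure FullyBlackBox (B : ℕ → ℕ) : Prop where
  /-- polynomial bounds on queries -/
  poly : ∃ p : Polynomial ℕ, ∀ n,
    (∀ r, (K.G n r).Within (p.eval n) (p.eval n)) ∧
    (∀ π r, (K.inst π n r).Bdd (p.eval n)) ∧
    (∀ r y, (K.R n r y).Within (p.eval n) (p.eval n))
  /-- the sampled instances have at most `B n` solutions, for every permutation family -/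
  few : ∀ π n r, (K.inst π n r).numSol π ≤ B n
  /-- for every permutation family and every solver: if the solver has non-negligible
  success probability, so has the reduction -/
  reduction : ∀ (π : Fam) (A : ∀ n, K.Code n → Str n),
    ¬ Negligible (K.solves π A) → ¬ Negligible (K.inverts π A)

end Construction

/-- Subexponential bounds: `B n ≤ 2 ^ (n ^ ε)` for every `ε > 0` and all large `n`. -/
def Subexp (B : ℕ → ℕ) : Prop :=
  ∀ ε : ℝ, 0 < ε → ∀ᶠ n : ℕ in Filter.atTop, (B n : ℝ) ≤ (2 : ℝ) ^ ((n : ℝ) ^ ε)

end Pool.Agent.H82.EOL
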