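import Mathlib
import Pool.Agent.H82.SVL.HL
import Pool.Agent.H82.SVL.Drift

set_option autoImplicit false
set_option linter.unusedSectionVars false

/-!
Board `eol`: rows of the proof that there is no fully black-box construction of hard source-or-sink
instances with few solutions from one-way permutations (MP_e1dfa1_lc, second question, partial).

From `Pool.Agent.H82.SVL`: `Tree` (query trees over `D`: `leaf`, `query`, `run`, `qs`, `DLe`,
`bind`; lemmas `run_bind`, `qs_bind`, `run_congr`, `qs_congr`, `card_qs_le`, `DLe.bind`), `Om srt`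
(permutations preserving `srt`), `C E π` (those agreeing with `π` on `E`), `fib`, `fr`, `Fr`, and in
`Count.lean` the lemmas `mem_C`, `self_mem_C`, `card_C_pos`, `C_eq_of_mem`, `mem_C_trans`,
`mem_C_symm`, `C_mono`, `mem_C_insert`, `mem_Fr`, `card_Fr`, `apply_mem_Fr`, `card_C_insert`
(`#C E π = #C (insert a E) π * fr E a`), `exists_apply_eq`, `exists_common`, `sum_C_fiber`,
`filter_eq_C`, `sum_C_le_of_reveal`; in `HL.lean` `qs_dichotomy` and `fib_card_le_fr_add`.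
-/

namespace Pool.Agent.H82.EOL

open Finset Pool.Agent.H82.SVL

/-- Indicator. -/
noncomputable def ind (p : Prop) : ℝ := open Classical in if p then 1 else 0

/-- `τ` takes no value in `Y` at the points of `V` outside `E`. -/
def Av {D : Type} {srt : D → ℕ} (Y E V : Finset D) (τ : Om srt) : Prop :=
  ∀ a ∈ V, a ∉ E → τ.1 a ∉ Y

/-- Number of elements of `Y` of the sort of `a`. -/
def ny {D : Type} (srt : D → ℕ) (Y : Finset D) (a : D) : ℕ :=
  (Y.filter (fun v => srt v = srt a)).card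

/-- The weight of a set `V` of known points when the values `Y` are forbidden. -/
noncomputable def gw {D : Type} [Fintype D] (srt : D → ℕ) (Y V : Finset D) : ℝ :=
  ∏ s ∈ univ.image srt, ∏ j ∈ range (V.filter (fun a => srt a = s)).card,
    (((univ.filter (fun a => srt a = s)).card : ℝ) - j) /
      (((univ.filter (fun a => srt a = s)).card : ℝ) - j - (Y.filter (fun a => srt a = s)).card)

/-- ROW W1. Only the factor `s = srt d` changes, from `m` to `m + 1` terms (`prod_range_succ`),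
where `m = (V.filter (srt a = srt d)).card`, and `fr srt V d = N - m` for
`N = (univ.filter (srt a = srt d)).card = (fib srt d).card`. -/
def S_W1 : Prop := ∀ (D : Type) [Fintype D] [DecidableEq D] (srt : D → ℕ) (Y V : Finset D) (d : D),
  d ∉ V → gw srt Y (insert d V)
    = gw srt Y V * ((fr srt V d : ℝ) / ((fr srt V d : ℝ) - ny srt Y d))

/-- ROW W2 (uses W1). Positivity: every factor of `gw srt Y E` has the form `(N-j)/(N-j-y)` with
`j < E.card`, `y ≤ Y.card`, `N = (fib srt a).card` for some `a`, so numerator and denominator are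
positive. Bound: put `δ = 1/(2k+1)`; by induction on `V` (with `V.card ≤ k`)
`gw (E ∪ V) * (1 - V.card * δ) ≤ gw E`, since for `d ∉ E ∪ V` W1 gives
`gw (E ∪ insert d V) * (1 - ny/fr) = gw (E ∪ V)` with
`ny/fr ≤ Y.card/((2k+1) Y.card + 1) ≤ δ` (`fr srt (E ∪ V) d ≥ (fib srt d).card - E.card - k`), and
`(1 - δ)(1 - v δ) ≥ 1 - (v+1) δ`. Finally `1 - k δ ≥ 1/2`. (`gw (E ∪ V) > 0` in the same way.) -/
def S_W2 : Prop := ∀ (D : Type) [Fintype D] [DecidableEq D] (srt : D → ℕ) (Y E V : Finset D)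
  (k : ℕ), V.card ≤ k → (∀ a, E.card + k + (2 * k + 1) * Y.card + 1 ≤ (fib srt a).card) →
  0 < gw srt Y E ∧ gw srt Y (E ∪ V) ≤ 2 * gw srt Y E

/-- ROW W3 (uses W1), induction on `T` for all `m E π`. Leaf: `Av` is vacuous, `E ∪ ∅ = E`.
Query `d` with `d ∈ E`: on `C E π` the answer is `π d`, `E ∪ insert d X = E ∪ X`, `Av` is the same
for `insert d X` and `X`. Query `d ∉ E`: split the sum with `sum_C_fiber` over `v ∈ Fr E π d`; for
`v` take `σ` with `exists_apply_eq`, `filter_eq_C`. If `v ∈ Y` all terms are `0`. If `v ∉ Y` the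
induction hypothesis for `k v`, `insert d E`, `σ` gives
`gw (insert d E) * #C (insert d E) σ = gw (insert d E) * #C E π / fr E d`; there are
`fr E d - ny Y d` such `v` (because `π` maps `E` outside `Y`, the elements of `Y` of the sort of `d`
all belong to `Fr E π d`); conclude with W1. -/
def S_W3 : Prop := ∀ (D : Type) [Fintype D] [DecidableEq D] (srt : D → ℕ) (Y : Finset D)
  (α : Type) (T : Tree D α) (m : ℕ) (E : Finset D) (π : Om srt),
  Tree.DLe T m → (∀ b ∈ E, π.1 b ∉ Y) → (∀ a, E.card + m + Y.card < (fib srt a).card) →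
  ∑ τ ∈ C E π, ind (Av Y E (Tree.qs τ.1 T) τ) * gw srt Y (E ∪ Tree.qs τ.1 T)
    = gw srt Y E * (C E π).card

/-- ROW W4 (uses W3), induction on `T` for all `m E π`. Leaf `a`: pull out `F a` and use W3 for
`g a`. Query `d ∈ E` as in W3. Query `d ∉ E`: split both sides with `sum_C_fiber` over
`v ∈ Fr E π d` (`σ` from `exists_apply_eq`, `filter_eq_C`): for `v ∈ Y` both sides vanish, for
`v ∉ Y` use the induction hypothesis with `insert d E`, `σ`
(`Av Y E (insert d X) τ ↔ Av Y (insert d E) X τ` when `τ d ∉ Y`). -/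
def S_W4 : Prop := ∀ (D : Type) [Fintype D] [DecidableEq D] (srt : D → ℕ) (Y : Finset D)
  (α β : Type) (T : Tree D α) (g : α → Tree D β) (F : α → ℝ) (m m' : ℕ) (E : Finset D)
  (π : Om srt), Tree.DLe T m → (∀ a, Tree.DLe (g a) m') → (∀ b ∈ E, π.1 b ∉ Y) →
  (∀ a, E.card + (m + m') + Y.card < (fib srt a).card) →
  ∑ τ ∈ C E π, ind (Av Y E (Tree.qs τ.1 (T.bind g)) τ) * gw srt Y (E ∪ Tree.qs τ.1 (T.bind g))
      * F (Tree.run τ.1 T)
    = ∑ τ ∈ C E π, ind (Av Y E (Tree.qs τ.1 T) τ) * gw srt Y (E ∪ Tree.qs τ.1 T)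
      * F (Tree.run τ.1 T)

/-- A source-or-sink instance whose successor and predecessor computations are query trees. -/
structure EI (D X : Type) where
  x0 : X
  S : X → Tree D X
  P : X → Tree D X

/-- Is there an edge out of `x`? -/
def EI.To {D X : Type} [DecidableEq X] (I : EI D X) (x : X) : Tree D Bool :=
  (I.S x).bind (fun v => (I.P v).bind (fun u => Tree.leaf (decide (v ≠ x ∧ u = x))))

/-- Is there an edge into `x`? -/
def EI.Ti {D X : Type} [DecidableEq X] (I : EI D X) (x : X) : Tree D Bool :=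
  (I.P x).bind (fun u => (I.S u).bind (fun v => Tree.leaf (decide (u ≠ x ∧ v = x))))

/-- Is a vertex a solution, given whether it is the special one (`z`), has an edge out (`o`), has
an edge in (`i`)? -/
def isol (z o i : Bool) : Bool := if z then (i || !o) else (i != o)

/-- Is `x` a solution? -/
def EI.chk {D X : Type} [DecidableEq X] (I : EI D X) (x : X) : Tree D Bool :=
  (I.To x).bind (fun o => (I.Ti x).bind (fun i => Tree.leaf (isol (decide (x = I.x0)) o i)))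

/-- All computations make at most `q` queries. -/
def EI.Bd {D X : Type} (I : EI D X) (q : ℕ) : Prop :=
  (∀ x, Tree.DLe (I.S x) q) ∧ (∀ x, Tree.DLe (I.P x) q)

/-- ROW X1. Both sides are equal to
`∑ u, ∑ v, ind (u ≠ v ∧ run (S u) = v ∧ run (P v) = u) * φ (qs (S u) ∪ qs (P v))`
(`Finset.sum_comm`; `run_bind`, `qs_bind`; on the left only `v = run (S u)` contributes). -/
def S_X1 : Prop := ∀ (D X : Type) [DecidableEq D] [Fintype X] [DecidableEq X] (I : EI D X)
  (f : D → D) (φ : Finset D → ℝ),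
  ∑ x, ind (Tree.run f (I.To x) = true) * φ (Tree.qs f (I.To x))
    = ∑ x, ind (Tree.run f (I.Ti x) = true) * φ (Tree.qs f (I.Ti x))

/-- ROW X2 (uses W2, W3, W4, X1). Put `w τ x = ind (Av Y E V τ) * gw (E ∪ V)`, `V = qs τ (chk x)`.
By W4 (`T = To x`, `m = m' = 2q`, `F = ind (· = true)`) and, after exchanging the two parts of
`chk` (`chk' x = (Ti x).bind (fun i => (To x).bind ..)` has the same query set as `chk x`, by
`qs_bind` and `union_comm`), W4 with `T = Ti x`, the sum over `x` and `τ ∈ C E π` of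
`w τ x * ind (run τ (To x) = true)` equals that of `w τ x * ind (run τ (Ti x) = true)`: both are
equal to the two sides of X1 with `φ V = ind (Av Y E V τ) * gw (E ∪ V)`, summed over `τ`.
For `x ≠ x0`: `ind(o) - ind(i) ≥ - ind (run τ (chk x) = true)`; for `x = x0`:
`ind(o) - ind(i) ≥ 1 - 2 * ind (run τ (chk x) = true)`. Hence
`∑ τ, w τ x0 ≤ 2 * ∑ x, ∑ τ, w τ x * ind (run τ (chk x) = true)`; the left side is
`gw E * #C E π` by W3 (`T = chk x0`, `m = 4q`), and `w τ x ≤ 2 * gw E * ind (Av ..)` by W2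
(`k = 4q`). Divide by `gw E > 0`. -/
def S_X2 : Prop := ∀ (D X : Type) [Fintype D] [DecidableEq D] [Fintype X] [DecidableEq X]
  (srt : D → ℕ) (Y : Finset D) (I : EI D X) (q : ℕ) (E : Finset D) (π : Om srt),
  I.Bd q → (∀ b ∈ E, π.1 b ∉ Y) →
  (∀ a, E.card + 4 * q + (2 * (4 * q) + 1) * Y.card + 1 ≤ (fib srt a).card) →
  ((C E π).card : ℝ) ≤ 4 * ∑ x, ∑ τ ∈ C E π,
    ind (Tree.run τ.1 (I.chk x) = true ∧ Av Y E (Tree.qs τ.1 (I.chk x)) τ)

/-- ROW CM, induction on `T` for all `E σ`. Leaf: `Av`-type conditions are vacuous, both sides are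
equal (`ind (b = true) * #C E σ * #C (E ∪ G) σ`). Query `d ∈ E`: the answer is `σ d` on both
sides, the conditions do not change. Query `d ∉ E`, `d ∈ G`: the left side is `0`. Query `d ∉ E`,
`d ∉ G`: split both sums with `sum_C_fiber` over the value `v` at `d` (`v ∈ Fr E σ d`, resp.
`v ∈ Fr (E ∪ G) σ d`). If `v ∈ Y` or `v ∈ (G \ E).image σ` the left terms are `0`. Otherwise
`v ∈ Fr (E ∪ G) σ d`; take `ρ ∈ C (E ∪ G) σ` with `ρ d = v` (`exists_apply_eq`); both pieces are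
`C (insert d E) ρ` and `C (insert d (E ∪ G)) ρ` (`filter_eq_C`), the induction hypothesis applies
to `insert d E`, `ρ` (`(G \ insert d E).image ρ = (G \ E).image σ`), and by `card_C_insert`
`#C (E ∪ G) σ = #C (insert d (E ∪ G)) ρ * fr (E ∪ G) d`, `#C E σ = #C (insert d E) ρ * fr E d`,
`fr (E ∪ G) d ≤ fr E d`. -/
def S_CM : Prop := ∀ (D : Type) [Fintype D] [DecidableEq D] (srt : D → ℕ) (Y G : Finset D)
  (T : Tree D Bool) (E : Finset D) (σ : Om srt),
  ((C (E ∪ G) σ).card : ℝ) * ∑ τ ∈ C E σ, ind (Tree.run τ.1 T = true ∧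
      ∀ a ∈ Tree.qs τ.1 T, a ∉ E → a ∉ G ∧ τ.1 a ∉ Y ∧ τ.1 a ∉ (G \ E).image σ.1)
    ≤ ((C E σ).card : ℝ) * ∑ τ ∈ C (E ∪ G) σ, ind (Tree.run τ.1 T = true ∧
      Av Y E (Tree.qs τ.1 T) τ)

/-- Hidden data consistent with the node `(E, π)`. -/
def Tn {D : Type} [Fintype D] [DecidableEq D] {srt : D → ℕ} {R : Type} (h : Hid srt R)
    (E : Finset D) (π : Om srt) : Finset (R × Om srt) :=
  h.Θ.filter (fun p => p.2 ∈ C E π)

/-- ROW CL. The sum of `A σ' / #C (E ∪ EG (r, σ')) σ'` over all `((r, σ), (r, σ'))` in `Tn` with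
`σ' ∈ C (E ∪ EG r σ) σ` (an equivalence relation on `Tn`: `h.closed` gives `EG r σ' = EG r σ` and
`(r, σ') ∈ Θ`; then `C (E ∪ EG r σ') σ' = C (E ∪ EG r σ) σ` by `C_eq_of_mem`), computed in the two
orders. -/
def S_CL : Prop := ∀ (D R : Type) [Fintype D] [DecidableEq D] (srt : D → ℕ) (h : Hid srt R)
  (E : Finset D) (π : Om srt) (A : Om srt → ℝ),
  ∑ p ∈ Tn h E π, A p.2 = ∑ p ∈ Tn h E π,
    (∑ σ ∈ C (E ∪ h.EG p.1 p.2) p.2, A σ) / (C (E ∪ h.EG p.1 p.2) p.2).card

/-- ROW LT (uses X2, CM, CL). Let `A σ = ∑ x, ind (run σ (chk x) = true ∧ Av Y E (qs ..) σ)`.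
For `p ∈ Tn`, `C E p.2 = C E π`, and CM (`G = EG p`, `σ = p.2`, `T = chk x`) summed over `x` gives
`#C E π * (∑ σ ∈ C_p, A σ)/#C_p ≥ ∑ x, ∑ τ ∈ C E π, ind (run τ (chk x) = true ∧ Av Y ∧ (*)_p)`,
`(*)_p : ∀ a ∈ qs τ (chk x), a ∉ E → a ∉ EG p ∧ τ a ∉ (EG p \ E).image p.2`. Sum over `p` (CL),
exchange sums: for fixed `x, τ` with `Av Y E ..` the number of `p ∈ Tn` violating `(*)_p` is at most
`∑ a ∈ qs τ (chk x) \ E, 2 * θ * #Tn ≤ 2 * (4q) * θ * #Tn ≤ #Tn / 2` (`card_qs_le`). Conclude with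
X2: `#C E π * ∑ p, A p.2 ≥ (#Tn/2) * (#C E π / 4)`. -/
def S_LT : Prop := ∀ (D X R : Type) [Fintype D] [DecidableEq D] [Fintype X] [DecidableEq X]
  (srt : D → ℕ) (h : Hid srt R) (Y : Finset D) (I : EI D X) (q : ℕ) (θ : ℝ) (E : Finset D)
  (π : Om srt), I.Bd q → (∀ b ∈ E, π.1 b ∉ Y) →
  (∀ a, E.card + 4 * q + (2 * (4 * q) + 1) * Y.card + 1 ≤ (fib srt a).card) →
  (∀ a, a ∉ E → ∑ p ∈ Tn h E π, ind (a ∈ h.EG p.1 p.2) ≤ θ * (Tn h E π).card) →
  (∀ y, y ∉ Y → ∑ p ∈ Tn h E π, ind (y ∈ (h.EG p.1 p.2 \ E).image p.2.1)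
    ≤ θ * (Tn h E π).card) →
  2 * (4 * q) * θ ≤ 1 / 2 →
  ((Tn h E π).card : ℝ) ≤ 8 * ∑ p ∈ Tn h E π, ∑ x,
    ind (Tree.run p.2.1 (I.chk x) = true ∧ Av Y E (Tree.qs p.2.1 (I.chk x)) p.2)

/-- The solutions relative to `σ`. -/
def EI.sols {D X : Type} [Fintype X] [DecidableEq X] (I : EI D X) (f : D → D) : Finset X :=
  univ.filter (fun x => Tree.run f (I.chk x) = true)

/-- The points read by the sampler or by the views of the solutions. -/
def QA {D X R : Type} [Fintype D] [DecidableEq D] [Fintype X] [DecidableEq X] {srt : D → ℕ}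
    (h : Hid srt R) (I : EI D X) (p : R × Om srt) : Finset D :=
  h.EG p.1 p.2 ∪ (I.sols p.2.1).biUnion (fun x => Tree.qs p.2.1 (I.chk x))

/-- Assumptions on hidden data and instance, `c` is the inverse of the threshold. -/
structure Hyp {D X R : Type} [Fintype D] [DecidableEq D] [Fintype X] [DecidableEq X]
    {srt : D → ℕ} (h : Hid srt R) (I : EI D X) (q b K c M : ℕ) : Prop where
  bd : I.Bd q
  hb : ∀ p ∈ h.Θ, (h.EG p.1 p.2).card ≤ b
  hK : ∀ p ∈ h.Θ, (I.sols p.2.1).card ≤ K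
  hc : c = 16 * (K + 1) * (b + K * (4 * q) + 1) * (4 * q + 1)
  room : ∀ a, M + 4 * q + (2 * (4 * q) + 1) * (c * (b + K * (4 * q))) + 1 ≤ (fib srt a).card

/-- ROW EX (uses LT). Let `H = {y | #Tn < c * #{p ∈ Tn | y ∈ (QA p \ E).image p.2}}`; by double
counting `#H * #Tn ≤ c * ∑ p ∈ Tn, #(QA p \ E) ≤ c * (b + K * 4q) * #Tn`, so
`#H ≤ c * (b + K * 4q)`. LT with `Y = H`, `θ = 1/c` applies (`π` maps `E` outside `H`, because for
`p ∈ Tn`, `p.2` is injective and equal to `π` on `E`; `EG ⊆ QA`), so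
`#Tn ≤ 8 * ∑ p ∈ Tn, ∑ x, ind (..) ≤ 8 * K * #{p ∈ Tn | ∃ x, run (chk x) = true ∧ Av H E ..}`.
The `p ∈ Tn` such that `QA p` meets `G` or `(QA p \ E).image p.2` meets `Y1 \ H` number at most
`(#G + #Y1) * #Tn / c ≤ 2 * (b + K * 4q) * #Tn / c < #Tn / (8 * K)`. So some `p` has a solution `x`
with `Av H E ..` and is not bad; the view of `x` is a subset of `QA p`. -/
def S_EX : Prop := ∀ (D X R : Type) [Fintype D] [DecidableEq D] [Fintype X] [DecidableEq X]
  (srt : D → ℕ) (h : Hid srt R) (I : EI D X) (q b K c M : ℕ) (E : Finset D) (π : Om srt)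
  (G Y1 : Finset D), Hyp h I q b K c M → E.card ≤ M → (Tn h E π).Nonempty →
  (∀ a, a ∉ E → c * ∑ p ∈ Tn h E π, ind (a ∈ QA h I p) ≤ (Tn h E π).card) →
  (∀ a ∈ G, a ∉ E) → G.card ≤ b + K * (4 * q) → Y1.card ≤ b + K * (4 * q) →
  ∃ p ∈ Tn h E π, ∃ x, Tree.run p.2.1 (I.chk x) = true ∧
    ∀ a ∈ Tree.qs p.2.1 (I.chk x), a ∉ E → a ∉ G ∧ p.2.1 a ∉ Y1

/-- ROW GR. With `V = qs p.2 (chk x)`, `exists_common` for `E'`, `τ` and `E ∪ V`, `p.2` gives `τ'`
(both conditions: `τ`, `p.2` agree with `π` on `E`; points of `V` outside `E` are not in `E'` and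
their values are not values of `τ` on `E' \ E`). `(r, τ') ∈ Θ` and `EG r τ' = EG r τ` by `h.closed`,
runs and query sets of `chk y`, `y ∈ s`, do not change (`run_congr`, `qs_congr`), and for `x`
they are those under `p.2`. `x ∉ s`: apply `qs_dichotomy (chk x) E π`; the first alternative
contradicts `hno x` (all `σ ∈ C E π` give the same run as `p.2`), the second gives
`a ∉ E`, `a ∈ qs p.2 (chk x)` and `a ∈ qs τ (chk x) ⊆ E'`. -/
def S_GR : Prop := ∀ (D X R : Type) [Fintype D] [DecidableEq D] [Fintype X] [DecidableEq X]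
  (srt : D → ℕ) (h : Hid srt R) (I : EI D X) (E : Finset D) (π : Om srt)
  (r : R) (τ : Om srt) (E' : Finset D) (s : Finset X) (p : R × Om srt) (x : X),
  (∀ y, ∃ σ ∈ C E π, Tree.run σ.1 (I.chk y) ≠ true) →
  (r, τ) ∈ Tn h E π → E ⊆ E' → h.EG r τ ⊆ E' →
  (∀ y ∈ s, Tree.run τ.1 (I.chk y) = true ∧ Tree.qs τ.1 (I.chk y) ⊆ E') →
  p ∈ Tn h E π → Tree.run p.2.1 (I.chk x) = true →
  (∀ a ∈ Tree.qs p.2.1 (I.chk x), a ∉ E → a ∉ E' ∧ p.2.1 a ∉ (E' \ E).image τ.1) →
  x ∉ s ∧ ∃ τ', (r, τ') ∈ Tn h E π ∧ h.EG r τ' ⊆ E' ∪ Tree.qs p.2.1 (I.chk x) ∧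
    ∀ y ∈ insert x s, Tree.run τ'.1 (I.chk y) = true ∧
      Tree.qs τ'.1 (I.chk y) ⊆ E' ∪ Tree.qs p.2.1 (I.chk x)

/-- ROW CE (uses EX, GR). By contradiction; for every `i ≤ K + 1` there are `(r, τ) ∈ Tn`, `E'`
and `s` with `#s = i`, `E ⊆ E'`, `EG r τ ⊆ E'`, `#(E' \ E) ≤ b + i * (4 * q)` and
`run τ (chk y) = true`, `qs τ (chk y) ⊆ E'` for `y ∈ s` (start with any `(r, τ) ∈ Tn`,
`E' = E ∪ EG r τ`; step from `i ≤ K` with EX for `G = E' \ E`, `Y1 = (E' \ E).image τ`, and GR). For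
`i = K + 1` this contradicts `hK`. -/
def S_CE : Prop := ∀ (D X R : Type) [Fintype D] [DecidableEq D] [Fintype X] [DecidableEq X]
  (srt : D → ℕ) (h : Hid srt R) (I : EI D X) (q b K c M : ℕ) (E : Finset D) (π : Om srt),
  Hyp h I q b K c M → E.card ≤ M → (Tn h E π).Nonempty →
  (∀ a, a ∉ E → c * ∑ p ∈ Tn h E π, ind (a ∈ QA h I p) ≤ (Tn h E π).card) →
  ∃ x, ∀ σ ∈ C E π, Tree.run σ.1 (I.chk x) = true

/-- ROW PL (uses CE), induction on `F` for all `E π`. `F = 0`: leaf `x0`. Step: if `Tn = ∅` take a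
leaf; if the node is light (hypothesis of CE) take the leaf `x` of CE, nothing fails; otherwise some
`a ∉ E` has `#Tn < c * #{p ∈ Tn | a ∈ QA p}`: query `a` and for the answer `v` continue with the
tree for `insert a E` and some `σ ∈ C E π` with `σ a = v` (leaf `x0` if there is none). Summing
the induction hypothesis over `v` (`Tn` is the disjoint union of the `Tn h (insert a E) σ_v`):
`F * fail ≤ c * ∑ p ∈ Tn, #(QA p \ insert a E) = c * ∑ p, #(QA p \ E) - c * #{p | a ∈ QA p}` and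
`fail ≤ #Tn`. -/
def S_PL : Prop := ∀ (D X R : Type) [Fintype D] [DecidableEq D] [Fintype X] [DecidableEq X]
  (srt : D → ℕ) (h : Hid srt R) (I : EI D X) (q b K c M : ℕ),
  Hyp h I q b K c M → ∀ (F : ℕ) (E : Finset D) (π : Om srt), E.card + F ≤ M →
  ∃ T : Tree D X, Tree.DLe T F ∧
    (F : ℝ) * ∑ p ∈ Tn h E π, ind (Tree.run p.2.1 (I.chk (Tree.run p.2.1 T)) ≠ true)
      ≤ c * ∑ p ∈ Tn h E π, ((QA h I p \ E).card : ℝ)

end Pool.Agent.H82.EOL
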