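import Mathlib
import Pool.Agent.H82.EOL.Model
import Pool.Agent.H82.EOL.Stmts
import Pool.Agent.H82.SVL.Conv
import Pool.Agent.H82.SVL.Solver

set_option autoImplicit false
set_option linter.unusedSectionVars false

namespace Pool.Agent.H82.EOL

open Finset Pool.Agent.H82.SVL

theorem ind_true {p : Prop} (h : p) : ind p = 1 := by simp [ind, h]

theorem ind_false {p : Prop} (h : ¬ p) : ind p = 0 := by simp [ind, h]

theorem sum_ind {α : Type} (s : Finset α) (p : α → Prop) [DecidablePred p] :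
    ∑ x ∈ s, ind (p x) = ((s.filter p).card : ℝ) := by
  rw [card_filter]
  push_cast
  apply sum_congr rfl
  intro x _
  by_cases h : p x
  · rw [ind_true h, if_pos h]
  · rw [ind_false h, if_neg h]

variable {n : ℕ}

/-! ### Instances as trees -/

/-- The instance as a family of trees. -/
def toEI (Z : Finset ℕ) (ρ : Fam) (I : EOLI n) : EI (DZ Z) (Str n) where
  x0 := fun _ => false
  S := fun x => conv Z ρ (I.S x)
  P := fun x => conv Z ρ (I.P x)

theorem toEI_bd (Z : Finset ℕ) (ρ : Fam) (I : EOLI n) {q : ℕ} (h : I.Bdd q) :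
    (toEI Z ρ I).Bd q :=
  ⟨fun x => DLe_conv (h.1 x), fun x => DLe_conv (h.2 x)⟩

theorem outDeg_eq (I : EOLI n) (π : Fam) (x : Str n) :
    (I.outDeg π x = 1 ∧ I.Edge π x ((I.S x).run (fun m => π m))) ∨
    (I.outDeg π x = 0 ∧ ¬ I.Edge π x ((I.S x).run (fun m => π m))) := by
  by_cases h : I.Edge π x ((I.S x).run (fun m => π m))
  · left
    refine ⟨?_, h⟩
    unfold EOLI.outDeg
    rw [Nat.card_eq_one_iff_unique]
    refine ⟨⟨fun a b => Subtype.ext ?_⟩, ⟨⟨_, h⟩⟩⟩
    rw [← a.2.2.1, ← b.2.2.1]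
  · right
    refine ⟨?_, h⟩
    unfold EOLI.outDeg
    have : IsEmpty {v // I.Edge π x v} := ⟨fun a => h (by
      have h1 := a.2
      rw [← a.2.2.1] at h1
      exact h1)⟩
    exact Nat.card_of_isEmpty

theorem inDeg_eq (I : EOLI n) (π : Fam) (x : Str n) :
    (I.inDeg π x = 1 ∧ I.Edge π ((I.P x).run (fun m => π m)) x) ∨
    (I.inDeg π x = 0 ∧ ¬ I.Edge π ((I.P x).run (fun m => π m)) x) := by
  by_cases h : I.Edge π ((I.P x).run (fun m => π m)) x
  · left
    refine ⟨?_, h⟩
    unfold EOLI.inDeg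
    rw [Nat.card_eq_one_iff_unique]
    refine ⟨⟨fun a b => Subtype.ext ?_⟩, ⟨⟨_, h⟩⟩⟩
    rw [← a.2.2.2, ← b.2.2.2]
  · right
    refine ⟨?_, h⟩
    unfold EOLI.inDeg
    have : IsEmpty {u // I.Edge π u x} := ⟨fun a => h (by
      have h1 := a.2
      rw [← a.2.2.2] at h1
      exact h1)⟩
    exact Nat.card_of_isEmpty

theorem run_To (Z : Finset ℕ) (ρ : Fam) (I : EOLI n) (τ : Om (len Z)) (x : Str n) :
    Tree.run τ.1 ((toEI Z ρ I).To x) = true ↔
      I.Edge (emb Z ρ τ) x ((I.S x).run (fun m => emb Z ρ τ m)) := by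
  unfold EI.To
  rw [Tree.run_bind, Tree.run_bind]
  rw [Tree.run_leaf]
  refine decide_eq_true_iff.trans ?_
  simp only [toEI]
  rw [run_conv, run_conv]
  unfold EOLI.Edge
  constructor
  · rintro ⟨h1, h2⟩
    exact ⟨fun h => h1 h.symm, rfl, h2⟩
  · rintro ⟨h1, _, h2⟩
    exact ⟨fun h => h1 h.symm, h2⟩

theorem run_Ti (Z : Finset ℕ) (ρ : Fam) (I : EOLI n) (τ : Om (len Z)) (x : Str n) :
    Tree.run τ.1 ((toEI Z ρ I).Ti x) = true ↔
      I.Edge (emb Z ρ τ) ((I.P x).run (fun m => emb Z ρ τ m)) x := by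
  unfold EI.Ti
  rw [Tree.run_bind, Tree.run_bind]
  rw [Tree.run_leaf]
  refine decide_eq_true_iff.trans ?_
  simp only [toEI]
  rw [run_conv, run_conv]
  unfold EOLI.Edge
  constructor
  · rintro ⟨h1, h2⟩
    exact ⟨h1, h2, rfl⟩
  · rintro ⟨h1, h2, _⟩
    exact ⟨h1, h2⟩

theorem run_chk (Z : Finset ℕ) (ρ : Fam) (I : EOLI n) (τ : Om (len Z)) (x : Str n) :
    Tree.run τ.1 ((toEI Z ρ I).chk x) = true ↔ I.Sol (emb Z ρ τ) x := by
  unfold EI.chk
  rw [Tree.run_bind, Tree.run_bind, Tree.run_leaf]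
  have ho := run_To Z ρ I τ x
  have hi := run_Ti Z ρ I τ x
  have hx0 : (toEI Z ρ I).x0 = (fun _ => false : Str n) := rfl
  rw [hx0]
  unfold EOLI.Sol
  rcases outDeg_eq I (emb Z ρ τ) x with ⟨o1, o2⟩ | ⟨o1, o2⟩ <;>
  rcases inDeg_eq I (emb Z ρ τ) x with ⟨i1, i2⟩ | ⟨i1, i2⟩ <;>
  by_cases hx : x = (fun _ => false : Str n)
  all_goals first
    | (have e1 : Tree.run τ.1 ((toEI Z ρ I).To x) = true := ho.mpr o2; rw [e1])
    | (have e1 : Tree.run τ.1 ((toEI Z ρ I).To x) = false := by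
        rw [← Bool.not_eq_true, ho]; exact o2
       rw [e1])
  all_goals first
    | (have e2 : Tree.run τ.1 ((toEI Z ρ I).Ti x) = true := hi.mpr i2; rw [e2])
    | (have e2 : Tree.run τ.1 ((toEI Z ρ I).Ti x) = false := by
        rw [← Bool.not_eq_true, hi]; exact i2
       rw [e2])
  all_goals rw [o1, i1]; simp [isol, hx]

theorem card_sols (Z : Finset ℕ) (ρ : Fam) (I : EOLI n) (τ : Om (len Z)) :
    ((toEI Z ρ I).sols τ.1).card = I.numSol (emb Z ρ τ) := by
  classical
  unfold EI.sols EOLI.numSol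
  rw [Nat.card_eq_fintype_card, Fintype.card_subtype]
  congr 1
  ext x
  simp only [mem_filter, mem_univ, true_and]
  exact run_chk Z ρ I τ x

/-! ### Parameters -/

/-- Inverse threshold. -/
def cc (P K : ℕ) : ℕ := 16 * (K + 1) * (P + K * (4 * P) + 1) * (4 * P + 1)

/-- Number of queries. -/
def cF (P K t : ℕ) : ℕ := t * (P + K * (4 * P) + 1) * cc P K

/-- Size of fibers. -/
def cN (P K t : ℕ) : ℕ :=
  cF P K t + 4 * P + (2 * (4 * P) + 1) * (cc P K * (P + K * (4 * P))) + 1

theorem cN_pos (P K t : ℕ) : 0 < cN P K t := by unfold cN; omega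

/-- The solver for planted instances. -/
theorem planted_nat (hPL : S_PL) {D X R : Type} [Fintype D] [DecidableEq D] [Fintype X]
    [DecidableEq X] {srt : D → ℕ} {h : Hid srt R} {I : EI D X} {P K : ℕ} (t : ℕ)
    (hne : Nonempty (Om srt))
    (hfib : ∀ a : D, cN P K t ≤ (fib srt a).card) (hI : I.Bd P)
    (hb : ∀ p ∈ h.Θ, (h.EG p.1 p.2).card ≤ P)
    (hK : ∀ p ∈ h.Θ, (I.sols p.2.1).card ≤ K) :
    open Classical in
    ∃ T : Tree D X, Tree.DLe T (cF P K t) ∧
      t * (h.Θ.filter (fun p => ¬ Tree.run p.2.1 (I.chk (Tree.run p.2.1 T)) = true)).card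
        ≤ h.Θ.card := by
  classical
  have hyp : Hyp h I P P K (cc P K) (cF P K t) := by
    refine ⟨hI, hb, hK, rfl, ?_⟩
    intro a
    have := hfib a
    unfold cN at this
    exact this
  obtain ⟨π₀⟩ := hne
  obtain ⟨T, hT1, hT2⟩ := hPL D X R srt h I P P K (cc P K) (cF P K t) hyp (cF P K t) ∅ π₀
    (by simp)
  have hTn : Tn h ∅ π₀ = h.Θ := by
    unfold Tn
    apply filter_true_of_mem
    intro p _
    rw [mem_C]
    simp
  rw [hTn] at hT2
  refine ⟨T, hT1, ?_⟩
  have h1 : ∑ p ∈ h.Θ, ind (Tree.run p.2.1 (I.chk (Tree.run p.2.1 T)) ≠ true)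
      = ((h.Θ.filter (fun p => ¬ Tree.run p.2.1 (I.chk (Tree.run p.2.1 T)) = true)).card : ℝ) := by
    rw [← sum_ind]
  rw [h1] at hT2
  have hQ : ∀ p ∈ h.Θ, ((QA h I p \ ∅).card : ℝ) ≤ ((P + K * (4 * P) : ℕ) : ℝ) := by
    intro p hp
    rw [sdiff_empty]
    have h2 : (QA h I p).card ≤ P + K * (4 * P) := by
      unfold QA
      refine (card_union_le _ _).trans (add_le_add (hb p hp) ?_)
      refine card_biUnion_le.trans ?_
      refine (sum_le_card_nsmul _ _ (4 * P) ?_).trans ?_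
      · intro x _
        apply Tree.card_qs_le
        have e : 4 * P = (P + P) + (P + P) := by ring
        rw [e]
        unfold EI.chk EI.To EI.Ti
        refine Tree.DLe.bind ((hI.1 x).bind (fun v => ?_)) (fun o => ?_)
        · exact ((hI.2 v).bind (fun u => Tree.DLe_leaf _ 0))
        · refine Tree.DLe.mono (m := (P + P) + 0) (Tree.DLe.bind ?_ ?_) (by omega)
          · exact (hI.2 x).bind (fun u => ((hI.1 u).bind (fun v => Tree.DLe_leaf _ 0)))
          · exact fun i => Tree.DLe_leaf _ 0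
      · rw [smul_eq_mul]
        exact Nat.mul_le_mul_right _ (hK p hp)
    exact_mod_cast h2
  have h3 := sum_le_sum hQ
  rw [sum_const, nsmul_eq_mul] at h3
  set f := (h.Θ.filter (fun p => ¬ Tree.run p.2.1 (I.chk (Tree.run p.2.1 T)) = true)).card with hf
  have hc : 0 < cc P K := by unfold cc; positivity
  have h4 : ((cF P K t : ℕ) : ℝ) * f ≤ cc P K * (h.Θ.card * ((P + K * (4 * P) : ℕ) : ℝ)) :=
    hT2.trans (mul_le_mul_of_nonneg_left h3 (by positivity))
  have h5 : cF P K t * f ≤ cc P K * (h.Θ.card * (P + K * (4 * P))) := by exact_mod_cast h4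
  unfold cF at h5
  have h6 : cc P K * ((P + K * (4 * P) + 1) * (t * f))
      ≤ cc P K * ((P + K * (4 * P) + 1) * h.Θ.card) := by
    calc cc P K * ((P + K * (4 * P) + 1) * (t * f))
        = t * (P + K * (4 * P) + 1) * cc P K * f := by ring
      _ ≤ cc P K * (h.Θ.card * (P + K * (4 * P))) := h5
      _ ≤ cc P K * ((P + K * (4 * P) + 1) * h.Θ.card) := by
          apply Nat.mul_le_mul_left
          rw [mul_comm]
          apply Nat.mul_le_mul_right
          omega
  exact Nat.le_of_mul_le_mul_left (Nat.le_of_mul_le_mul_left h6 hc) (by omega)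

/-! ### The solver -/

variable {X : Type} {c : ℕ}

/-- The hidden data of the solver. -/
noncomputable def hid (Z : Finset ℕ) (ρ : Fam) (dec : X → EOLI n) (G : Str c → Comp Str X)
    (I : EOLI n) : Hid (len Z) (Str c) where
  Θ := by
    classical
    exact univ.filter (fun p => dec ((G p.1).run (orc (emb Z ρ p.2))) = I)
  EG := fun r τ => Tree.qs τ.1 (conv Z ρ (G r))
  closed := by
    classical
    intro r π hp σ hσ
    rw [mem_filter] at hp ⊢
    rw [mem_C] at hσ
    refine ⟨⟨mem_univ _, ?_⟩, ?_⟩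
    · rw [← hp.2]
      simp only
      rw [← run_conv, ← run_conv]
      rw [Tree.run_congr (f := π.1) (g := σ.1) hσ]
    · exact Tree.qs_congr (f := π.1) (g := σ.1) hσ

open Classical in
theorem mem_hid {Z : Finset ℕ} {ρ : Fam} {dec : X → EOLI n} {G : Str c → Comp Str X}
    {I : EOLI n} {p : Str c × Om (len Z)} :
    p ∈ (hid Z ρ dec G I).Θ ↔ dec ((G p.1).run (orc (emb Z ρ p.2))) = I := by
  simp [hid]

open Classical in
/-- What the tree used by the solver achieves. -/
def GoodT (Z : Finset ℕ) (ρ : Fam) (dec : X → EOLI n) (G : Str c → Comp Str X) (P K t : ℕ)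
    (I : EOLI n) (T : Tree (DZ Z) (Str n)) : Prop :=
  Tree.DLe T (cF P K t) ∧
    t * (((hid Z ρ dec G I).Θ).filter
      (fun p => ¬ I.Sol (emb Z ρ p.2) (Tree.run p.2.1 T))).card
      ≤ ((hid Z ρ dec G I).Θ).card

theorem exists_goodT (hPL : S_PL) {Z : Finset ℕ} {ρ : Fam} {dec : X → EOLI n}
    {G : Str c → Comp Str X}
    {P K t : ℕ} (hZ : ∀ m ∈ Z, cN P K t ≤ 2 ^ m)
    (hG : ∀ r, (G r).Within P P)
    (hv : ∀ π r, (dec ((G r).run (orc π))).numSol π ≤ K) (I : EOLI n) (hI : I.Bdd P) :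
    ∃ T, GoodT Z ρ dec G P K t I T := by
  classical
  obtain ⟨T, hT1, hT2⟩ := planted_nat hPL (I := toEI Z ρ I) (h := hid Z ρ dec G I) (P := P)
    (K := K) t ⟨res Z 1⟩
    (fun a => (hZ _ a.1.2).trans (card_fib_len Z a)) (toEI_bd Z ρ I hI)
    (by
      intro p _
      exact Tree.card_qs_le _ (DLe_conv (hG p.1)))
    (by
      intro p hp
      rw [mem_hid] at hp
      rw [card_sols, ← hp]
      exact hv _ _)
  refine ⟨T, hT1, ?_⟩
  have : ((hid Z ρ dec G I).Θ).filter (fun p => ¬ I.Sol (emb Z ρ p.2) (Tree.run p.2.1 T))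
      = ((hid Z ρ dec G I).Θ).filter
        (fun p => ¬ Tree.run p.2.1 ((toEI Z ρ I).chk (Tree.run p.2.1 T)) = true) := by
    apply filter_congr
    intro p _
    rw [run_chk]
  rw [this]
  exact hT2

open Classical in
/-- The tree used by the solver. -/
noncomputable def solT (Z : Finset ℕ) (ρ : Fam) (dec : X → EOLI n) (G : Str c → Comp Str X)
    (P K t : ℕ) (I : EOLI n) : Tree (DZ Z) (Str n) :=
  if h : ∃ T, GoodT Z ρ dec G P K t I T then Classical.choose h
  else Tree.leaf (fun _ => false)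

theorem DLe_solT (Z : Finset ℕ) (ρ : Fam) (dec : X → EOLI n) (G : Str c → Comp Str X)
    (P K t : ℕ) (I : EOLI n) : Tree.DLe (solT Z ρ dec G P K t I) (cF P K t) := by
  unfold solT
  split_ifs with h
  · exact (Classical.choose_spec h).1
  · exact Tree.DLe_leaf _ _

/-- Threshold for short strings. -/
def thr (P K t : ℕ) : ℕ := Nat.clog 2 (cN P K t)

theorem le_thr (P K t : ℕ) : cN P K t ≤ 2 ^ thr P K t :=
  Nat.le_pow_clog (by norm_num) _

theorem thr_le (P K t : ℕ) : 2 ^ thr P K t ≤ 2 * cN P K t := by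
  unfold thr
  set x := cN P K t with hx
  have hx0 : 0 < x := cN_pos _ _ _
  rcases Nat.lt_or_ge x 2 with h | h
  · have h1 : x = 1 := by omega
    rw [h1]
    simp
  · have h1 := Nat.pow_pred_clog_lt_self (b := 2) (by norm_num) (x := x) (by omega)
    have h2 : 0 < Nat.clog 2 x := Nat.clog_pos (by norm_num) h
    obtain ⟨y, hy⟩ : ∃ y, Nat.clog 2 x = y + 1 := ⟨Nat.clog 2 x - 1, by omega⟩
    rw [hy] at h1 ⊢
    simp only [Nat.pred_succ] at h1
    rw [pow_succ]
    omega

open Classical in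
/-- The solver, as a query computation. -/
noncomputable def Sol (dec : X → EOLI n) (G : Str c → Comp Str X) (P K t : ℕ) (I : EOLI n) :
    Comp Str (Str n) :=
  if I.Bdd P then
    readL (pts (thr P K t)) (fun g =>
      if h : ∃ ρ : Fam, ∀ m, m < thr P K t → ∀ x, ρ m x = g ⟨m, x⟩ then
        unconv (solT (Icc (thr P K t) P) (Classical.choose h) dec G P K t I)
      else Comp.ret (fun _ => false))
  else Comp.ret (fun _ => false)

/-- Query bound of the solver. -/
def qSol (P K t : ℕ) : ℕ := 2 * cN P K t + cF P K t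

/-- Length bound of the solver. -/
def lSol (P K t : ℕ) : ℕ := 2 * cN P K t + P

theorem Within_Sol (dec : X → EOLI n) (G : Str c → Comp Str X) (P K t : ℕ) (I : EOLI n) :
    (Sol dec G P K t I).Within (lSol P K t) (qSol P K t) := by
  unfold Sol
  split_ifs with hI
  · have h1 : (pts (thr P K t)).length + cF P K t ≤ qSol P K t := by
      have := length_pts (thr P K t)
      have := thr_le P K t
      unfold qSol
      omega
    have hthr : thr P K t ≤ lSol P K t := by
      have := thr_le P K t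
      have h2 : thr P K t < 2 ^ thr P K t := Nat.lt_two_pow_self
      unfold lSol
      omega
    refine Comp.Within.mono ?_ le_rfl h1
    apply Within_readL
    · intro p hp
      rw [mem_pts] at hp
      omega
    · intro g
      split_ifs with hg
      · apply Within_unconv
        · intro m hm
          rw [mem_Icc] at hm
          unfold lSol
          omega
        · exact DLe_solT _ _ _ _ _ _ _ _
      · exact Comp.Within_ret _ _ _
  · exact Comp.Within_ret _ _ _

/-- Solutions depend only on bounded lengths. -/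
theorem Sol_congr {I : EOLI n} {P : ℕ} (hI : I.Bdd P) {π π' : Fam} (h : ∀ m, m ≤ P → π m = π' m)
    (x : Str n) : I.Sol π x ↔ I.Sol π' x := by
  have hE : ∀ u v, I.Edge π u v ↔ I.Edge π' u v := by
    intro u v
    unfold EOLI.Edge
    have h1 : (I.S u).run (fun m => π m) = (I.S u).run (fun m => π' m) :=
      Comp.run_congr (fun m hm x => by rw [h m hm]) (hI.1 u)
    have h2 : (I.P v).run (fun m => π m) = (I.P v).run (fun m => π' m) :=
      Comp.run_congr (fun m hm x => by rw [h m hm]) (hI.2 v)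
    rw [h1, h2]
  have h1 : I.inDeg π x = I.inDeg π' x := by
    unfold EOLI.inDeg
    exact Nat.card_congr (Equiv.subtypeEquivRight (fun u => hE u x))
  have h2 : I.outDeg π x = I.outDeg π' x := by
    unfold EOLI.outDeg
    exact Nat.card_congr (Equiv.subtypeEquivRight (fun v => hE x v))
  unfold EOLI.Sol
  rw [h1, h2]

/-- The solver fails rarely. -/
theorem Sol_fail (hPL : S_PL) {dec : X → EOLI n} {G : Str c → Comp Str X} {P K t : ℕ}
    (hG : ∀ r, (G r).Within P P)
    (hbdd : ∀ π r, (dec ((G r).run (orc π))).Bdd P)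
    (hv : ∀ π r, (dec ((G r).run (orc π))).numSol π ≤ K) (ρ₀ : Fam) :
    open Classical in
    t * (univ.filter (fun p : Str c × Om (len (Icc (thr P K t) P)) =>
      ¬ (dec ((G p.1).run (orc (emb (Icc (thr P K t) P) ρ₀ p.2)))).Sol
          (emb (Icc (thr P K t) P) ρ₀ p.2)
        ((Sol dec G P K t (dec ((G p.1).run (orc (emb (Icc (thr P K t) P) ρ₀ p.2))))).run
          (orc (emb (Icc (thr P K t) P) ρ₀ p.2))))).card
      ≤ Fintype.card (Str c × Om (len (Icc (thr P K t) P))) := by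
  classical
  set Z := Icc (thr P K t) P with hZdef
  set m₀ := thr P K t with hm₀
  have hZ : ∀ m ∈ Z, cN P K t ≤ 2 ^ m := by
    intro m hm
    rw [hZdef, mem_Icc] at hm
    exact (le_thr P K t).trans (Nat.pow_le_pow_right (by norm_num) hm.1)
  -- the table seen by the solver
  set g₀ := tab ρ₀ (pts m₀) with hg₀
  have hgex : ∃ ρ : Fam, ∀ m, m < m₀ → ∀ x, ρ m x = g₀ ⟨m, x⟩ := by
    refine ⟨ρ₀, fun m hm x => ?_⟩
    rw [hg₀, tab_mem ρ₀ (mem_pts.mpr hm)]
  set ρ := Classical.choose hgex with hρ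
  have hρs : ∀ m, m < m₀ → ρ m = ρ₀ m := by
    intro m hm
    ext1 x
    rw [Classical.choose_spec hgex m hm x, hg₀, tab_mem ρ₀ (mem_pts.mpr hm)]
  have hag : ∀ (τ : Om (len Z)) (m : ℕ), m ≤ P → emb Z ρ₀ τ m = emb Z ρ τ m := by
    intro τ m hm
    apply emb_congr_left
    intro hmZ
    rw [hZdef, mem_Icc] at hmZ
    exact (hρs m (by omega)).symm
  have hGrun : ∀ p : Str c × Om (len Z), (G p.1).run (orc (emb Z ρ₀ p.2))
      = (G p.1).run (orc (emb Z ρ p.2)) := by
    intro p
    exact Comp.run_congr (fun m hm x => by simp only [orc]; rw [hag p.2 m hm]) (hG p.1)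
  have hline : ∀ (I : EOLI n), I.Bdd P → ∀ (τ : Om (len Z)) (x : Str n),
      I.Sol (emb Z ρ₀ τ) x ↔ I.Sol (emb Z ρ τ) x := by
    intro I hI τ x
    exact Sol_congr hI (hag τ) x
  have hSol : ∀ (I : EOLI n), I.Bdd P → ∀ τ : Om (len Z),
      (Sol dec G P K t I).run (orc (emb Z ρ₀ τ)) = Tree.run τ.1 (solT Z ρ dec G P K t I) := by
    intro I hI τ
    have htab : tab (emb Z ρ₀ τ) (pts m₀) = g₀ := by
      rw [hg₀]
      apply tab_congr
      intro p hp
      rw [mem_pts] at hp
      rw [emb_not_mem]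
      rw [hZdef, mem_Icc]
      omega
    unfold Sol
    rw [if_pos hI]
    rw [run_readL, ← hm₀, htab, dif_pos hgex, run_unconv, ← hZdef, res_emb]
  -- rewrite the failure event
  set inst : Str c × Om (len Z) → EOLI n := fun p => dec ((G p.1).run (orc (emb Z ρ p.2)))
    with hinst
  have hset : (univ.filter (fun p : Str c × Om (len Z) =>
      ¬ (dec ((G p.1).run (orc (emb Z ρ₀ p.2)))).Sol (emb Z ρ₀ p.2)
      ((Sol dec G P K t (dec ((G p.1).run (orc (emb Z ρ₀ p.2))))).run (orc (emb Z ρ₀ p.2)))))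
      = univ.filter (fun p : Str c × Om (len Z) =>
        ¬ (inst p).Sol (emb Z ρ p.2) (Tree.run p.2.1 (solT Z ρ dec G P K t (inst p)))) := by
    apply filter_congr
    intro p _
    rw [hGrun p]
    have hb : (inst p).Bdd P := hbdd _ _
    rw [hSol _ hb, hline _ hb]
  rw [hset]
  -- split by the instance
  set Im := (univ : Finset (Str c × Om (len Z))).image inst with hIm
  have h1 : (univ.filter (fun p : Str c × Om (len Z) =>
        ¬ (inst p).Sol (emb Z ρ p.2) (Tree.run p.2.1 (solT Z ρ dec G P K t (inst p))))).card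
      = ∑ I ∈ Im, (((hid Z ρ dec G I).Θ).filter
        (fun p => ¬ I.Sol (emb Z ρ p.2) (Tree.run p.2.1 (solT Z ρ dec G P K t I)))).card := by
    rw [card_eq_sum_card_fiberwise (f := inst) (t := Im)
      (fun p _ => mem_coe.mpr (mem_image_of_mem _ (mem_univ p)))]
    apply sum_congr rfl
    intro I _
    congr 1
    ext p
    simp only [mem_filter, mem_univ, true_and, mem_hid]
    constructor
    · rintro ⟨h1, h2⟩
      rw [h2] at h1
      exact ⟨h2, h1⟩
    · rintro ⟨h1, h2⟩
      have h3 : inst p = I := h1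
      rw [h3]
      exact ⟨h2, rfl⟩
  have h2 : Fintype.card (Str c × Om (len Z)) = ∑ I ∈ Im, ((hid Z ρ dec G I).Θ).card := by
    rw [← card_univ, card_eq_sum_card_fiberwise (f := inst) (t := Im)
      (fun p _ => mem_coe.mpr (mem_image_of_mem _ (mem_univ p)))]
    apply sum_congr rfl
    intro I _
    rfl
  rw [h1, h2, mul_sum]
  apply sum_le_sum
  intro I hI
  rw [hIm, mem_image] at hI
  obtain ⟨p, _, hp⟩ := hI
  have hIb : I.Bdd P := by rw [← hp]; exact hbdd _ _
  have hex := exists_goodT hPL (ρ := ρ) hZ hG hv I hIb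
  unfold solT
  rw [dif_pos hex]
  exact (Classical.choose_spec hex).2

end Pool.Agent.H82.EOL
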