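import Mathlib
import Pool.Agent.H82.EOL.Solver
import Pool.Agent.H82.SVL.MainThm

set_option autoImplicit false
set_option linter.unusedSectionVars false

namespace Pool.Agent.H82.EOL

open Finset
open Pool.Agent.H82.SVL hiding Construction thr Sol qSol lSol cF cN separation no_construction
  Within_Sol Sol_fail le_thr thr_le hid mem_hid GoodT exists_goodT solT DLe_solT planted_nat
  PB_bounds

theorem qSol_mono {P P' K K' t t' : ℕ} (h1 : P ≤ P') (h2 : K ≤ K') (h3 : t ≤ t') :
    qSol P K t ≤ qSol P' K' t' := by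
  unfold qSol cN cF cc
  gcongr

theorem lSol_mono {P P' K K' t t' : ℕ} (h1 : P ≤ P') (h2 : K ≤ K') (h3 : t ≤ t') :
    lSol P K t ≤ lSol P' K' t' := by
  unfold lSol cN cF cc
  gcongr

theorem tt_mono {a b : ℕ} (h : a ≤ b) : tt a ≤ tt b := by
  unfold tt
  gcongr

theorem PB_bounds (p : Polynomial ℕ) :
    PB (fun x => qSol (p.eval x) x (tt x)) ∧ PB (fun x => lSol (p.eval x) x (tt x)) := by
  unfold qSol lSol cN cF cc tt
  constructor
  · repeat' first
      | exact PB.const _
      | exact PB.id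
      | exact PB.poly p
      | apply PB.add
      | apply PB.mul
  · repeat' first
      | exact PB.const _
      | exact PB.id
      | exact PB.poly p
      | apply PB.add
      | apply PB.mul

/-- Sizes met by the reduction on inputs of length `m`. -/
def XX (p : Polynomial ℕ) (B : ℕ → ℕ) (m : ℕ) : ℕ :=
  (range (p.eval m + 1)).sup (fun n => n + B n)

theorem le_XX {p : Polynomial ℕ} {B : ℕ → ℕ} {m n : ℕ} (h : n ≤ p.eval m) :
    n + B n ≤ XX p B m := by
  unfold XX
  exact le_sup (f := fun n => n + B n) (mem_range.mpr (by omega))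

open Classical in
/-- The solver fails too often. -/
def EvA {c : ℕ} (FA : Fam → Str c → Prop) (π : Fam) : Prop :=
  (2 : ℝ) ^ c < 2 * ((univ.filter (fun r => FA π r)).card : ℝ)

open Classical in
/-- The reduction succeeds too often. -/
def EvR {c m : ℕ} (FR : Fam → Str c × Str m → Prop) (Q : ℕ) (π : Fam) : Prop :=
  8 * ((m : ℝ) + 1) * (m + 2) * (Q + 1) * 2 ^ c < ((univ.filter (fun q => FR π q)).card : ℝ)

open Classical in
theorem EvA_congr {c : ℕ} {FA : Fam → Str c → Prop} {π π' : Fam}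
    (h : ∀ r, FA π r ↔ FA π' r) (hE : EvA FA π) : EvA FA π' := by
  unfold EvA at hE ⊢
  have e : (univ.filter (fun r => FA π r)) = (univ.filter (fun r => FA π' r)) :=
    filter_congr (fun r _ => h r)
  rw [← e]
  exact hE

open Classical in
theorem EvR_congr {c m : ℕ} {FR : Fam → Str c × Str m → Prop} {Q : ℕ} {π π' : Fam}
    (h : ∀ q, FR π q ↔ FR π' q) (hE : EvR FR Q π) : EvR FR Q π' := by
  unfold EvR at hE ⊢
  have e : (univ.filter (fun q => FR π q)) = (univ.filter (fun q => FR π' q)) :=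
    filter_congr (fun q _ => h q)
  rw [← e]
  exact hE

open Classical in
theorem rare_EvA {c j : ℕ} (FA : Fam → Str c → Prop) (Z : Finset ℕ)
    (h : ∀ ρ : Fam, tt j * (univ.filter (fun p : Str c × Om (len Z) =>
      FA (emb Z ρ p.2) p.1)).card ≤ Fintype.card (Str c × Om (len Z))) :
    Rare (EvA FA) (1 / (4 * ((j + 1) * (j + 2)))) := by
  refine ⟨Z, fun ρ => ?_⟩
  have h1 := h ρ
  have h2 : (tt j : ℝ) * ((univ.filter (fun q : Str c × Om (len Z) =>
      FA (emb Z ρ q.2) q.1)).card : ℝ) ≤ 2 ^ c * Fintype.card (Om (len Z)) := by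
    have h3 : Fintype.card (Str c × Om (len Z))
        = 2 ^ c * Fintype.card (Om (len Z)) := by
      rw [Fintype.card_prod]; simp
    rw [h3] at h1
    exact_mod_cast h1
  have h4 : (univ.filter (fun q : Om (len Z) × Str c => FA (emb Z ρ q.1) q.2)).card
      = (univ.filter (fun q : Str c × Om (len Z) => FA (emb Z ρ q.2) q.1)).card := by
    refine card_bij' (fun q _ => (q.2, q.1)) (fun q _ => (q.2, q.1)) ?_ ?_ ?_ ?_
    · intro q hq
      rw [mem_filter] at hq ⊢
      exact ⟨mem_univ _, hq.2⟩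
    · intro q hq
      rw [mem_filter] at hq ⊢
      exact ⟨mem_univ _, hq.2⟩
    · intro q _; rfl
    · intro q _; rfl
  have htt : ((tt j : ℕ) : ℝ) = 8 * ((j : ℝ) + 1) * (j + 2) := by
    unfold tt; push_cast; ring
  have http : (0 : ℝ) < tt j := by rw [htt]; positivity
  have h2p : (0 : ℝ) < (2 : ℝ) ^ c := by positivity
  have h5 := markov_count (T := Om (len Z)) (S := Str c)
    (fun τ r => FA (emb Z ρ τ) r) (fun τ => EvA FA (emb Z ρ τ))
    (a := 2 ^ c / 2)
    (b := 2 ^ c * Fintype.card (Om (len Z)) / tt j) (by positivity)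
    (by
      intro τ hτ
      have h6 : (2 : ℝ) ^ c < 2 * (univ.filter (fun r => FA (emb Z ρ τ) r)).card := hτ
      linarith)
    (by
      rw [h4, le_div_iff₀ http]
      linarith)
  refine h5.trans (le_of_eq ?_)
  rw [htt]
  field_simp
  ring

open Classical in
theorem rare_EvR {c m : ℕ} (FR : Fam → Str c × Str m → Prop) (Q : ℕ)
    (h : ∀ (ρ : Fam) (r : Str c), ((univ.filter (fun q : Om (len {m}) × Str m =>
      FR (emb {m} ρ q.1) (r, q.2))).card : ℝ) ≤ 2 * (Q + 1) * Fintype.card (Om (len {m}))) :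
    Rare (EvR FR Q) (1 / (4 * ((m + 1) * (m + 2)))) := by
  refine ⟨{m}, fun ρ => ?_⟩
  have h2 : ((univ.filter (fun q : Om (len {m}) × (Str c × Str m) =>
      FR (emb {m} ρ q.1) q.2)).card : ℝ)
      ≤ 2 ^ c * (2 * (Q + 1) * Fintype.card (Om (len {m}))) := by
    have h3n : (univ.filter (fun q : Om (len {m}) × (Str c × Str m) =>
      FR (emb {m} ρ q.1) q.2)).card
      = ∑ r : Str c, (univ.filter (fun q : Om (len {m}) × Str m =>
      FR (emb {m} ρ q.1) (r, q.2))).card := by
      rw [card_eq_sum_card_fiberwise (f := fun q => q.2.1) (t := univ)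
        (fun q _ => mem_coe.mpr (mem_univ _))]
      apply sum_congr rfl
      intro r _
      refine card_bij' (fun q _ => (q.1, q.2.2)) (fun q _ => (q.1, (r, q.2))) ?_ ?_ ?_ ?_
      · rintro ⟨τ, r', x⟩ hq
        simp only [mem_filter, mem_univ, true_and] at hq ⊢
        obtain ⟨hq1, hq2⟩ := hq
        subst hq2
        exact hq1
      · rintro ⟨τ, x⟩ hq
        simp only [mem_filter, mem_univ, true_and] at hq ⊢
        exact ⟨hq, trivial⟩
      · rintro ⟨τ, r', x⟩ hq
        simp only [mem_filter, mem_univ, true_and] at hq ⊢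
        rw [hq.2]
      · rintro ⟨τ, x⟩ _; rfl
    rw [h3n, Nat.cast_sum]
    calc _ ≤ ∑ _r : Str c, 2 * ((Q : ℝ) + 1) * Fintype.card (Om (len {m})) :=
          sum_le_sum (fun r _ => h ρ r)
      _ = _ := by
          rw [sum_const, nsmul_eq_mul, card_univ]
          simp
  have h2p : (0 : ℝ) < (2 : ℝ) ^ c := by positivity
  have hQp : (0 : ℝ) < (Q : ℝ) + 1 := by positivity
  have h5 := markov_count (T := Om (len {m})) (S := Str c × Str m)
    (fun τ q => FR (emb {m} ρ τ) q) (fun τ => EvR FR Q (emb {m} ρ τ))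
    (a := 8 * ((m : ℝ) + 1) * (m + 2) * (Q + 1) * 2 ^ c)
    (b := 2 ^ c * (2 * (Q + 1) * Fintype.card (Om (len {m})))) (by positivity)
    (by
      intro τ hτ
      have h6 : 8 * ((m : ℝ) + 1) * (m + 2) * (Q + 1) * 2 ^ c
          < (univ.filter (fun q => FR (emb {m} ρ τ) q)).card := hτ
      exact h6.le) h2
  refine h5.trans (le_of_eq ?_)
  field_simp
  ring

open Classical in
theorem half_of_not_EvA {c : ℕ} {FA : Fam → Str c → Prop} {π : Fam} (h : ¬ EvA FA π)
    (E : Str c → Prop) (hE : ∀ r, E r ↔ ¬ FA π r) : 1 / 2 ≤ prob E := by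
  unfold EvA at h
  push Not at h
  have h3 : ((univ.filter (fun r => ¬ FA π r)).card : ℝ)
      + (univ.filter (fun r => FA π r)).card = 2 ^ c := by
    have h4 := card_filter_add_card_filter_not (s := (univ : Finset (Str c)))
      (fun r => FA π r)
    rw [card_univ] at h4
    have h5 : Fintype.card (Str c) = 2 ^ c := by simp
    rw [h5] at h4
    rw [add_comm]
    exact_mod_cast h4
  have h6 : E = fun r => ¬ FA π r := funext (fun r => propext (hE r))
  subst h6
  unfold prob
  have h7 : (Fintype.card (Str c) : ℝ) = 2 ^ c := by simp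
  rw [h7, div_le_div_iff₀ (by norm_num) (by positivity), one_mul]
  have h9 : (2 : ℝ) ^ c ≤ ((univ.filter (fun r => ¬ FA π r)).card : ℝ) * 2 := by
    linarith
  refine h9.trans (le_of_eq ?_)
  congr 3
  ext r
  simp

theorem prob_le_of_not_EvR {c m : ℕ} {FR : Fam → Str c × Str m → Prop} {Q : ℕ} {π : Fam}
    (h : ¬ EvR FR Q π) (E : Str c × Str m → Prop) [DecidablePred E] (hE : ∀ q, E q ↔ FR π q)
    {b : ℝ} (hb : 8 * ((m : ℝ) + 1) * (m + 2) * (Q + 1) ≤ b) : prob E ≤ b / 2 ^ m := by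
  classical
  unfold EvR at h
  push Not at h
  have h6 : (univ.filter E) ⊆ (univ.filter (FR π)) := by
    intro q hq
    rw [mem_filter] at hq ⊢
    exact ⟨mem_univ _, (hE q).mp hq.2⟩
  have h6' : ((univ.filter E).card : ℝ) ≤ ((univ.filter (FR π)).card : ℝ) := by
    exact_mod_cast card_le_card h6
  unfold prob
  have h7 : (Fintype.card (Str c × Str m) : ℝ) = 2 ^ c * 2 ^ m := by simp
  rw [h7, div_le_div_iff₀ (by positivity) (by positivity)]
  calc ((univ.filter E).card : ℝ) * 2 ^ m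
      ≤ (8 * ((m : ℝ) + 1) * (m + 2) * (Q + 1) * 2 ^ c) * 2 ^ m := by
        apply mul_le_mul_of_nonneg_right _ (by positivity)
        refine h6'.trans (le_trans (le_of_eq ?_) h)
        congr 2
    _ = (8 * ((m : ℝ) + 1) * (m + 2) * (Q + 1)) * (2 ^ c * 2 ^ m) := by ring
    _ ≤ b * (2 ^ c * 2 ^ m) := by gcongr

/-- The quantitative separation. -/
theorem separation (hPL : S_PL) (K : Construction) (B : ℕ → ℕ) (p : Polynomial ℕ)
    (hG : ∀ n r, (K.G n r).Within (p.eval n) (p.eval n))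
    (hbdd : ∀ n π r, (K.inst π n r).Bdd (p.eval n))
    (hR : ∀ n r y, (K.R n r y).Within (p.eval n) (p.eval n))
    (hv : ∀ π n r, (K.inst π n r).numSol π ≤ B n) :
    ∃ (π : Fam) (A : ∀ n, K.Code n → Str n),
      (∀ n, 1 / 2 ≤ K.solves π A n) ∧
      ∃ q : Polynomial ℕ, ∀ m, K.inverts π A m ≤ (q.eval (m + XX p B m) : ℕ) / 2 ^ m := by
  classical
  obtain ⟨⟨qs, hqs⟩, ⟨ls, hls⟩⟩ := PB_bounds p
  -- the solver as a computation
  obtain ⟨S, hSdef⟩ : ∃ S : ∀ n, K.Code n → Comp Str (Str n), S = fun n c =>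
    Sol (K.dec n) (K.G n) (p.eval n) (B n) (tt n) (K.dec n c) := ⟨_, rfl⟩
  have hS : ∀ n c, (S n c).Within (ls.eval (n + B n)) (qs.eval (n + B n)) := by
    intro n c
    rw [hSdef]
    refine (Within_Sol (K.dec n) (K.G n) (p.eval n) (B n) (tt n) (K.dec n c)).mono ?_ ?_
    · exact (lSol_mono (eval_mono p (by omega)) (by omega) (tt_mono (by omega))).trans
        (hls (n + B n))
    · exact (qSol_mono (eval_mono p (by omega)) (by omega) (tt_mono (by omega))).trans
        (hqs (n + B n))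
  -- bounds for the reduction with the solver inside
  obtain ⟨QQ, hQQ⟩ : ∃ QQ : ℕ → ℕ, ∀ m, QQ m = p.eval m * (qs.eval (XX p B m) + 1) :=
    ⟨_, fun _ => rfl⟩
  obtain ⟨LL, hLL⟩ : ∃ LL : ℕ → ℕ, ∀ m, LL m = ls.eval (XX p B m) + p.eval m :=
    ⟨_, fun _ => rfl⟩
  have hinl : ∀ m r y, (inl S (K.R m r y)).Within (LL m) (QQ m) := by
    intro m r y
    rw [hQQ, hLL]
    apply Within_inl S (P := p.eval m) (by omega) (by omega) _ (hR m r y)
    intro i hi c
    refine (hS i c).mono ?_ ?_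
    · have := eval_mono ls (le_XX (B := B) hi)
      omega
    · have := eval_mono qs (le_XX (B := B) hi)
      omega
  -- bad events
  obtain ⟨FA, hFA⟩ : ∃ FA : ∀ n, Fam → Str (K.cG n) → Prop, ∀ n π r, FA n π r ↔
    ¬ (K.inst π n r).Sol π ((S n ((K.G n r).run (orc π))).run (orc π)) :=
    ⟨_, fun _ _ _ => Iff.rfl⟩
  obtain ⟨FR, hFR⟩ : ∃ FR : ∀ m, Fam → Str (K.cR m) × Str m → Prop, ∀ m π q, FR m π q ↔
    (inl S (K.R m q.1 (π m q.2))).run (orc π) = q.2 := ⟨_, fun _ _ _ => Iff.rfl⟩
  let Ev : Bool → ℕ → Fam → Prop := fun s j π =>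
    cond s (EvR (FR j) (QQ j) π) (EvA (FA j) π)
  let lenB : Bool → ℕ → ℕ := fun s j =>
    cond s (LL j + j + 1) (ls.eval (j + B j) + p.eval j + 1)
  have hcongr : ∀ {α : Type} {X : Comp Str α} {ℓ q : ℕ} {π π' : Fam},
      X.Within ℓ q → (∀ m, m ≤ ℓ → π m = π' m) → X.run (orc π) = X.run (orc π') := by
    intro α X ℓ q π π' h hπ
    exact Comp.run_congr (fun m hm x => by simp only [orc]; rw [hπ m hm]) h
  have hdep : ∀ s j π π', (∀ m, m < lenB s j → π m = π' m) → Ev s j π → Ev s j π' := by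
    intro s j π π' hππ hB
    cases s with
    | false =>
      have hππ' : ∀ m, m < ls.eval (j + B j) + p.eval j + 1 → π m = π' m := hππ
      have hB' : EvA (FA j) π := hB
      show EvA (FA j) π'
      refine EvA_congr ?_ hB'
      intro r
      have hc : (K.G j r).run (orc π) = (K.G j r).run (orc π') :=
        hcongr (hG j r) (fun m hm => hππ' m (by omega))
      have hin : K.inst π j r = K.inst π' j r := by
        simp only [Construction.inst]
        exact congrArg _ hc
      have hsol : ∀ x, (K.inst π j r).Sol π x ↔ (K.inst π j r).Sol π' x := fun x =>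
        Sol_congr (hbdd j π r) (fun m hm => hππ' m (by omega)) x
      have hA : (S j ((K.G j r).run (orc π))).run (orc π)
          = (S j ((K.G j r).run (orc π'))).run (orc π') := by
        rw [hc]
        exact hcongr (hS j _) (fun m hm => hππ' m (by omega))
      rw [hFA, hFA, hA, hsol, hin]
    | true =>
      have hππ' : ∀ m, m < LL j + j + 1 → π m = π' m := hππ
      have hB' : EvR (FR j) (QQ j) π := hB
      show EvR (FR j) (QQ j) π'
      refine EvR_congr ?_ hB'
      intro q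
      rw [hFR, hFR]
      rw [hππ' j (by omega)]
      rw [hcongr (hinl j q.1 _) (fun m hm => hππ' m (by omega))]
  have hrare : ∀ s j, Rare (Ev s j) (1 / (4 * ((j + 1) * (j + 2)))) := by
    intro s j
    cases s with
    | false =>
      show Rare (EvA (FA j)) _
      apply rare_EvA (FA j) (Icc (thr (p.eval j) (B j) (tt j)) (p.eval j))
      intro ρ
      have h1 := Sol_fail hPL (dec := K.dec j) (G := K.G j) (P := p.eval j) (K := B j)
        (t := tt j) (hG j) (fun π r => hbdd j π r) (fun π r => hv π j r) ρ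
      refine le_trans (Nat.mul_le_mul_left _ (card_le_card ?_)) h1
      intro q hq
      rw [mem_filter] at hq ⊢
      refine ⟨mem_univ _, ?_⟩
      have h2 := (hFA j _ q.1).mp hq.2
      rw [hSdef] at h2
      exact h2
    | true =>
      show Rare (EvR (FR j) (QQ j)) _
      apply rare_EvR (FR j) (QQ j)
      intro ρ r
      have h1 := invert_bound j (QQ j) (fun y => inl S (K.R j r y)) (fun y => hinl j r y) ρ
      refine le_trans ?_ h1
      have h2 : (univ.filter (fun q : Om (len {j}) × Str j =>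
          FR j (emb {j} ρ q.1) (r, q.2))) ⊆
          (univ.filter (fun q : Om (len {j}) × Str j =>
          ((fun y => inl S (K.R j r y)) (emb {j} ρ q.1 j q.2)).run (orc (emb {j} ρ q.1))
            = q.2)) := by
        intro q hq
        rw [mem_filter] at hq ⊢
        exact ⟨mem_univ _, (hFR j _ _).mp hq.2⟩
      exact_mod_cast card_le_card h2
  obtain ⟨π, hπ⟩ := exists_good Ev lenB hdep hrare
  refine ⟨π, fun n c => (S n c).run (orc π), ?_, ?_⟩
  · intro n
    have h1 : ¬ EvA (FA n) π := hπ false n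
    unfold Construction.solves
    apply half_of_not_EvA h1
    intro r
    rw [hFA, not_not]
    exact Iff.rfl
  · refine ⟨8 * (Polynomial.X + 1) * (Polynomial.X + 2) * (p * (qs + 1) + 1), ?_⟩
    intro m
    have h1 : ¬ EvR (FR m) (QQ m) π := hπ true m
    have h3 : 8 * (m + 1) * (m + 2) * (QQ m + 1) ≤
        (8 * (Polynomial.X + 1) * (Polynomial.X + 2) * (p * (qs + 1) + 1) : Polynomial ℕ).eval
          (m + XX p B m) := by
      rw [hQQ]
      simp only [Polynomial.eval_mul, Polynomial.eval_add, Polynomial.eval_X,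
        Polynomial.eval_one, Polynomial.eval_ofNat]
      have e1 : p.eval m ≤ p.eval (m + XX p B m) := eval_mono p (by omega)
      have e2 : qs.eval (XX p B m) ≤ qs.eval (m + XX p B m) := eval_mono qs (by omega)
      gcongr
      · omega
      · omega
    unfold Construction.inverts
    refine prob_le_of_not_EvR h1 (fun q : Str (K.cR m) × Str m =>
        (K.R m q.1 (π m q.2)).run
          (fun i => Sum.elim (π i) (fun c => (S i c).run (orc π))) = q.2) (by
        intro q
        rw [hFR, run_inl]) ?_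
    exact_mod_cast h3

/-! ### Subexponential bounds -/

theorem negligible_of_growth {f : ℕ → ℝ} (q : Polynomial ℕ) (x : ℕ → ℕ) (hx : ∀ m, m ≤ x m)
    (h : ∀ m, f m ≤ (q.eval (x m) : ℕ) / 2 ^ m)
    (hg : ∀ k : ℕ, ∀ᶠ m : ℕ in Filter.atTop, (x m) ^ k ≤ 2 ^ m) : Negligible f := by
  intro c
  filter_upwards [hg (q.natDegree + c + 1), Filter.eventually_ge_atTop (q.eval 1 + 1)]
    with m hm hm1
  refine (h m).trans ?_
  have hm0 : 1 ≤ m := by omega
  have hxm := hx m
  have hmp : (0 : ℝ) < (m : ℝ) ^ c := by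
    have : (0 : ℝ) < m := by exact_mod_cast hm0
    positivity
  rw [div_le_iff₀ (by positivity), inv_mul_eq_div, le_div_iff₀ hmp]
  have h3 : q.eval (x m) * m ^ c ≤ 2 ^ m := by
    calc q.eval (x m) * m ^ c ≤ (q.eval 1 * (x m) ^ q.natDegree) * (x m) ^ c := by
          apply Nat.mul_le_mul
          · exact eval_le_pow q (by omega)
          · exact Nat.pow_le_pow_left hxm c
      _ ≤ (x m * (x m) ^ q.natDegree) * (x m) ^ c := by
          apply Nat.mul_le_mul_right
          apply Nat.mul_le_mul_right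
          omega
      _ = (x m) ^ (q.natDegree + c + 1) := by ring
      _ ≤ 2 ^ m := hm
  exact_mod_cast h3

theorem pow_le_two_pow (k a : ℕ) : ∀ᶠ m : ℕ in Filter.atTop, a * m ^ k ≤ 2 ^ m := by
  have h1 := tendsto_pow_const_div_const_pow_of_one_lt k (r := (2 : ℝ)) (by norm_num)
  have h2 : ∀ᶠ m : ℕ in Filter.atTop, (m : ℝ) ^ k / 2 ^ m < 1 / (a + 1) :=
    h1.eventually_lt_const (by positivity)
  filter_upwards [h2] with m hm
  rw [div_lt_div_iff₀ (by positivity) (by positivity)] at hm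
  have h3 : (a : ℝ) * (m : ℝ) ^ k ≤ 2 ^ m := by
    have : (0 : ℝ) ≤ (m : ℝ) ^ k := by positivity
    nlinarith
  exact_mod_cast h3

/-- Growth of the sizes met by the reduction. -/
theorem growth {B : ℕ → ℕ} (hB : Subexp B) (p : Polynomial ℕ) (k : ℕ) :
    ∀ᶠ m : ℕ in Filter.atTop, (m + XX p B m) ^ k ≤ 2 ^ m := by
  -- it is enough to bound powers of `B n` for `n ≤ p m`
  have key : ∀ j : ℕ, ∀ᶠ m : ℕ in Filter.atTop, ∀ n, n ≤ p.eval m → (B n) ^ j ≤ 2 ^ m := by
    intro j
    set d := p.natDegree with hd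
    set a := p.eval 1 with ha
    set ε : ℝ := 1 / (2 * (d + 1)) with hε
    have hε0 : 0 < ε := by positivity
    obtain ⟨n₀, hn₀⟩ := Filter.eventually_atTop.mp (hB ε hε0)
    -- small n
    have hsmall : ∀ᶠ m : ℕ in Filter.atTop, ∀ n, n < n₀ → (B n) ^ j ≤ 2 ^ m := by
      have h1 := pow_le_two_pow 0 ((range n₀).sup (fun n => (B n) ^ j))
      filter_upwards [h1] with m hm n hn
      have h2 : (B n) ^ j ≤ (range n₀).sup (fun n => (B n) ^ j) :=
        le_sup (f := fun n => (B n) ^ j) (mem_range.mpr hn)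
      rw [pow_zero, mul_one] at hm
      exact h2.trans hm
    -- large n
    have hlarge : ∀ᶠ m : ℕ in Filter.atTop,
        (j : ℝ) * (((a : ℝ) * (m : ℝ) ^ d) ^ ε) ≤ m := by
      have h1 : Filter.Tendsto (fun m : ℕ => (m : ℝ) ^ (1 / 2 : ℝ)) Filter.atTop Filter.atTop :=
        (tendsto_rpow_atTop (by norm_num)).comp tendsto_natCast_atTop_atTop
      filter_upwards [h1.eventually_ge_atTop ((j : ℝ) * (a : ℝ) ^ ε),
        Filter.eventually_ge_atTop 1] with m hm hm1
      have hm0 : (0 : ℝ) < m := by exact_mod_cast hm1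
      have hm1' : (1 : ℝ) ≤ m := by exact_mod_cast hm1
      have h2 : ((a : ℝ) * (m : ℝ) ^ d) ^ ε = (a : ℝ) ^ ε * (m : ℝ) ^ ((d : ℝ) * ε) := by
        rw [Real.mul_rpow (by positivity) (by positivity)]
        congr 1
        rw [← Real.rpow_natCast, ← Real.rpow_mul hm0.le]
      have h3 : (m : ℝ) ^ ((d : ℝ) * ε) ≤ (m : ℝ) ^ (1 / 2 : ℝ) := by
        apply Real.rpow_le_rpow_of_exponent_le hm1'
        rw [hε, mul_one_div, div_le_div_iff₀ (by positivity) (by norm_num)]
        linarith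
      have h4 : (m : ℝ) ^ (1 / 2 : ℝ) * (m : ℝ) ^ (1 / 2 : ℝ) = m := by
        rw [← Real.rpow_add hm0]
        norm_num
      have h5 : (0 : ℝ) ≤ (m : ℝ) ^ (1 / 2 : ℝ) := by positivity
      have h6 : (0 : ℝ) ≤ (j : ℝ) * (a : ℝ) ^ ε := by positivity
      calc (j : ℝ) * (((a : ℝ) * (m : ℝ) ^ d) ^ ε)
          = ((j : ℝ) * (a : ℝ) ^ ε) * (m : ℝ) ^ ((d : ℝ) * ε) := by rw [h2]; ring
        _ ≤ (m : ℝ) ^ (1 / 2 : ℝ) * (m : ℝ) ^ (1 / 2 : ℝ) := by gcongr
        _ = m := h4
    filter_upwards [hsmall, hlarge, Filter.eventually_ge_atTop 1] with m h1 h2 hm1 n hn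
    rcases Nat.lt_or_ge n n₀ with h | h
    · exact h1 n h
    · have h3 := hn₀ n h
      have h4 : (n : ℝ) ≤ (a : ℝ) * (m : ℝ) ^ d := by
        have := hn.trans (eval_le_pow p hm1)
        exact_mod_cast this
      have h5 : (n : ℝ) ^ ε ≤ ((a : ℝ) * (m : ℝ) ^ d) ^ ε :=
        Real.rpow_le_rpow (by positivity) h4 hε0.le
      have h6 : ((B n : ℝ)) ^ j ≤ (2 : ℝ) ^ m := by
        calc ((B n : ℝ)) ^ j ≤ ((2 : ℝ) ^ ((n : ℝ) ^ ε)) ^ j :=
              pow_le_pow_left₀ (by positivity) h3 j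
          _ = (2 : ℝ) ^ ((j : ℝ) * (n : ℝ) ^ ε) := by
              rw [← Real.rpow_natCast, ← Real.rpow_mul (by norm_num), mul_comm]
          _ ≤ (2 : ℝ) ^ (m : ℝ) := by
              apply Real.rpow_le_rpow_of_exponent_le (by norm_num)
              have hj : (0 : ℝ) ≤ j := by positivity
              exact (mul_le_mul_of_nonneg_left h5 hj).trans h2
          _ = (2 : ℝ) ^ m := Real.rpow_natCast 2 m
      exact_mod_cast h6
  -- assemble
  have hX : ∀ᶠ m : ℕ in Filter.atTop, ∀ n, n ≤ p.eval m → (m + n) ^ (2 * k) * 4 ^ k ≤ 2 ^ m := by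
    have h1 := pow_le_two_pow ((p.natDegree + 1) * (2 * k)) (((p.eval 1 + 1) ^ (2 * k)) * 4 ^ k)
    filter_upwards [h1, Filter.eventually_ge_atTop 1] with m hm hm1 n hn
    have h2 : m + n ≤ (p.eval 1 + 1) * m ^ (p.natDegree + 1) := by
      have h3 := hn.trans (eval_le_pow p hm1)
      have h4 : m ^ p.natDegree ≤ m ^ (p.natDegree + 1) := Nat.pow_le_pow_right hm1 (by omega)
      have h5 : m ≤ m ^ (p.natDegree + 1) := Nat.le_self_pow (by omega) m
      have h6 : p.eval 1 * m ^ p.natDegree ≤ p.eval 1 * m ^ (p.natDegree + 1) :=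
        Nat.mul_le_mul_left _ h4
      nlinarith
    calc (m + n) ^ (2 * k) * 4 ^ k
        ≤ ((p.eval 1 + 1) * m ^ (p.natDegree + 1)) ^ (2 * k) * 4 ^ k := by
          gcongr
      _ = ((p.eval 1 + 1) ^ (2 * k)) * 4 ^ k * m ^ ((p.natDegree + 1) * (2 * k)) := by
          rw [mul_pow, ← pow_mul]; ring
      _ ≤ 2 ^ m := hm
  have h4k := pow_le_two_pow 0 (16 ^ k)
  filter_upwards [key (4 * k), hX, h4k] with m h1 h2 h3
  rw [pow_zero, mul_one] at h3
  -- the supremum is attained
  have hsup : ∃ n, n ≤ p.eval m ∧ XX p B m = n + B n := by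
    unfold XX
    obtain ⟨n, hn, hn2⟩ := exists_mem_eq_sup (range (p.eval m + 1)) ⟨0, by simp⟩
      (fun n => n + B n)
    exact ⟨n, by rw [mem_range] at hn; omega, hn2⟩
  obtain ⟨n, hn, hXn⟩ := hsup
  rw [hXn]
  have e1 := h1 n hn
  have e2 := h2 n hn
  set u := m + n with hu
  set v := B n with hv
  have e3 : m + (n + v) = u + v := by omega
  rw [e3]
  -- (u+v)^k ≤ 2^k max^k
  have e4 : (u + v) ^ k ≤ (2 * max u v) ^ k := by
    apply Nat.pow_le_pow_left
    have := le_max_left u v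
    have := le_max_right u v
    omega
  refine e4.trans ?_
  rcases le_total u v with huv | huv
  · rw [max_eq_right huv]
    -- (2v)^k squared
    have e5 : ((2 * v) ^ k) ^ 4 ≤ (2 ^ m) ^ 4 := by
      calc ((2 * v) ^ k) ^ 4 = 16 ^ k * v ^ (4 * k) := by
            rw [mul_pow, mul_pow]
            rw [← pow_mul, ← pow_mul, mul_comm k 4, pow_mul 2 4 k]
            norm_num
        _ ≤ 2 ^ m * 2 ^ m := Nat.mul_le_mul h3 e1
        _ ≤ (2 ^ m) ^ 4 := by
            have h0 : 1 ≤ 2 ^ m := Nat.one_le_two_pow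
            calc 2 ^ m * 2 ^ m = (2 ^ m) ^ 2 := by ring
              _ ≤ (2 ^ m) ^ 4 := Nat.pow_le_pow_right h0 (by norm_num)
    exact (Nat.pow_le_pow_iff_left (by norm_num)).mp e5
  · rw [max_eq_left huv]
    have e5 : ((2 * u) ^ k) ^ 2 ≤ (2 ^ m) ^ 2 := by
      calc ((2 * u) ^ k) ^ 2 = u ^ (2 * k) * 4 ^ k := by
            rw [mul_pow, mul_pow]
            rw [← pow_mul, ← pow_mul, mul_comm k 2, pow_mul 2 2 k]
            norm_num
            ring
        _ ≤ 2 ^ m := e2
        _ ≤ (2 ^ m) ^ 2 := Nat.le_self_pow (by norm_num) _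
    exact (Nat.pow_le_pow_iff_left (by norm_num)).mp e5

/-- No fully black-box construction with subexponentially many solutions exists. -/
theorem no_construction (hPL : S_PL) (B : ℕ → ℕ) (hB : Subexp B) :
    ¬ ∃ K : Construction, K.FullyBlackBox B := by
  rintro ⟨K, ⟨⟨p, hp⟩, hv, hred⟩⟩
  obtain ⟨π, A, hA, q, hq⟩ := separation hPL K B p (fun n => (hp n).1) (fun n => (hp n).2.1)
    (fun n => (hp n).2.2) hv
  refine hred π A ?_ (negligible_of_growth q (fun m => m + XX p B m) (fun m => by omega) hq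
    (growth hB p))
  intro hneg
  have h1 := hneg 1
  have h2 := (h1.and (Filter.eventually_ge_atTop 3)).exists
  obtain ⟨n, hn1, hn2⟩ := h2
  have h3 := hA n
  have h4 : (3 : ℝ) ≤ n := by exact_mod_cast hn2
  have h5 : ((n : ℝ) ^ 1)⁻¹ ≤ 1 / 3 := by
    rw [pow_one, ← one_div]
    exact one_div_le_one_div_of_le (by norm_num) h4
  linarith

end Pool.Agent.H82.EOL
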