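import Mathlib
import Pool.Agent.H82.EOL.Main
import Pool.Agent.H40.EOL.W1
import Pool.Agent.H72.EOL.W2
import Pool.Agent.H21.EOL.W3
import Pool.Agent.H93.EOL.W4
import Pool.Agent.H34.EOL.X1
import Pool.Agent.H1.EOL.X2
import Pool.Agent.H86.EOL.CM
import Pool.Agent.H25.EOL.CL
import Pool.Agent.H78.EOL.LT
import Pool.Agent.H1.EOL.EX
import Pool.Agent.H86.EOL.GR
import Pool.Agent.H34.EOL.CE
import Pool.Agent.H12.EOL.PL

set_option autoImplicit false

namespace Pool.Agent.H82.EOL

/-- All rows together. -/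
theorem pl_all : S_PL := by
  have w1 : S_W1 := Pool.Agent.H40.EOL.w1_thm
  have w2 : S_W2 := Pool.Agent.H72.EOL.w2_thm w1
  have w3 : S_W3 := Pool.Agent.H21.EOL.w3_thm w1
  have w4 : S_W4 := Pool.Agent.H93.EOL.w4_thm w3
  have x1 : S_X1 := Pool.Agent.H34.EOL.X1_thm
  have x2 : S_X2 := Pool.Agent.H1.EOL.x2_thm w2 w3 w4 x1
  have lt : S_LT := Pool.Agent.H78.EOL.lt_thm x2 Pool.Agent.H86.EOL.cm_thm
    Pool.Agent.H25.EOL.CL_thm
  have ex : S_EX := Pool.Agent.H1.EOL.ex_thm lt
  have ce : S_CE := Pool.Agent.H34.EOL.CE_thm ex Pool.Agent.H86.EOL.gr_thm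
  exact Pool.Agent.H12.EOL.pl_thm ce

/-- No fully black-box construction, from one-way permutations, of hard source-or-sink instances
with a subexponential number of solutions. -/
theorem no_few_solutions (B : ℕ → ℕ) (hB : Subexp B) :
    ¬ ∃ K : Construction, K.FullyBlackBox B :=
  no_construction pl_all B hB

end Pool.Agent.H82.EOL
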